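import Pool.Agent.Helper81.PC.St

set_option autoImplicit false

/-!
# Packed checker: integer forms and equality of forms
-/

namespace Pool.Agent.Helper3.PC

open Helper11.CT Helper55.PC Helper81.PC

/-- bound of the value of a form -/
theorem phi_bd (β : ℤ) : ∀ e : List ℤ, (∀ x ∈ e, |x| ≤ β) →
    (BB - 1) * |phi BB e| ≤ β * (BB ^ e.length - 1) := by
  intro e
  induction e with
  | nil => intro _; simp
  | cons c e ih =>
    intro h
    have h1 := h c List.mem_cons_self
    have h2 := ih fun x hx => h x (List.mem_cons_of_mem _ hx)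
    rw [phi_cons, List.length_cons, pow_succ]
    have h3 : |c + BB * phi BB e| ≤ |c| + BB * |phi BB e| := by
      refine (abs_add_le _ _).trans ?_
      rw [abs_mul, abs_of_nonneg (show (0 : ℤ) ≤ BB by norm_num)]
    have h4 : (BB - 1) * |c + BB * phi BB e| ≤ (BB - 1) * (|c| + BB * |phi BB e|) :=
      mul_le_mul_of_nonneg_left h3 (by norm_num)
    have h5 : (BB - 1) * |c| ≤ (BB - 1) * β := mul_le_mul_of_nonneg_left h1 (by norm_num)
    have h6 : BB * ((BB - 1) * |phi BB e|) ≤ BB * (β * (BB ^ e.length - 1)) :=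
      mul_le_mul_of_nonneg_left h2 (by norm_num)
    calc (BB - 1) * |c + BB * phi BB e| ≤ (BB - 1) * (|c| + BB * |phi BB e|) := h4
      _ = (BB - 1) * |c| + BB * ((BB - 1) * |phi BB e|) := by ring
      _ ≤ (BB - 1) * β + BB * (β * (BB ^ e.length - 1)) := add_le_add h5 h6
      _ = β * (BB ^ e.length * BB - 1) := by ring

theorem phi_take_drop (n : ℕ) : ∀ e : List ℤ, n ≤ e.length →
    phi BB e = phi BB (e.take n) + BB ^ n * phi BB (e.drop n) := by
  induction n with
  | zero => intro e _; simp
  | succ n ih =>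
    intro e h
    cases e with
    | nil => simp at h
    | cons c e =>
      rw [List.take_succ_cons, List.drop_succ_cons, phi_cons, phi_cons,
        ih e (by simpa using h), pow_succ]
      ring

/-- a class modulo `ZZ` is determined by its residue modulo `ZN` -/
theorem mod_cg (x : ℕ) : ((x % ZN : ℕ) : ℤ) ≡ (x : ℤ) [ZMOD ZZ] := by
  rw [← ZN_eq, Int.natCast_mod]
  exact Int.mod_modEq _ _

theorem nb_eq (K : Cls) : (pkK K).nb = Nat.pred (4294967296 ^ K.nI / 2) := rfl

/-- **R** -/
theorem hR (_hA : StA) (hB : StB) : StR := by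
  refine ⟨?_, ?_⟩
  · intro K e x hn hr hx
    have hx' : ((x + (pkK K).nb) % ZN) ≤ 2 * (pkK K).nb := Nat.le_of_ble_eq_true hx
    set nb := (pkK K).nb with hnb
    have hnb' : nb = Nat.pred (4294967296 ^ K.nI / 2) := nb_eq K
    have h1p : 1 ≤ 4294967296 ^ K.nI := Nat.one_le_pow _ _ (by norm_num)
    have hnb1 : 2 * nb + 1 ≤ 4294967296 ^ K.nI := by
      rw [hnb', Nat.pred_eq_sub_one]
      omega
    have hnb2 : 2 * (nb : ℤ) + 1 ≤ BB ^ K.nI := by
      have : 2 * (nb : ℤ) + 1 ≤ (4294967296 : ℤ) ^ K.nI := by exact_mod_cast hnb1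
      exact this
    have hpow : BB ^ K.nI ≤ BB ^ 15 := pow_le_pow_right₀ (by norm_num) hn
    -- the value
    have hV := phi_bd 100000 e hr.bd
    have hlen : BB ^ e.length ≤ BB ^ 16 := pow_le_pow_right₀ (by norm_num) hr.len
    have hV2 : |phi BB e| < 4294967296 ^ 16 := by
      by_contra hcon
      push Not at hcon
      have : (BB - 1) * 4294967296 ^ 16 ≤ (BB - 1) * |phi BB e| :=
        mul_le_mul_of_nonneg_left hcon (by norm_num)
      have h2 : 100000 * (BB ^ e.length - 1) ≤ 100000 * BB ^ 16 := by linarith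
      have h3 : (100000 : ℤ) * BB ^ 16 < (BB - 1) * 4294967296 ^ 16 := by norm_num
      linarith
    have hcg : (((x + nb) % ZN : ℕ) : ℤ) ≡ phi BB e + nb [ZMOD ZZ] := by
      refine (mod_cg _).trans ?_
      push_cast
      exact hr.cg.add_right _
    have hy0 : (0 : ℤ) ≤ (((x + nb) % ZN : ℕ) : ℤ) := Int.natCast_nonneg _
    have hy1 : (((x + nb) % ZN : ℕ) : ℤ) ≤ 2 * (nb : ℤ) := by exact_mod_cast hx'
    set y : ℤ := (((x + nb) % ZN : ℕ) : ℤ) with hy
    have hdvd : ZZ ∣ phi BB e + nb - y := hcg.dvd
    have hV3 := abs_lt.1 hV2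
    have hzero : phi BB e + nb - y = 0 := by
      apply Int.eq_zero_of_abs_lt_dvd hdvd
      have h15 : (BB : ℤ) ^ 15 + 4294967296 ^ 16 < ZZ := by norm_num
      rw [abs_lt]
      constructor <;> linarith [hV3.1, hV3.2]
    have hb1 : -(nb : ℤ) ≤ phi BB e := by linarith
    have hb2 : phi BB e ≤ (nb : ℤ) := by linarith
    -- the list
    show allz (e.drop K.nI) = true
    rcases Nat.lt_or_ge e.length K.nI with hl | hl
    · rw [List.drop_eq_nil_of_le hl.le]
      rfl
    · have hsplit := phi_take_drop K.nI e hl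
      have hL := phi_bd 100000 (e.take K.nI)
        (fun z hz => hr.bd z (List.mem_of_mem_take hz))
      rw [List.length_take, min_eq_left hl] at hL
      set L := phi BB (e.take K.nI) with hLdef
      set H := phi BB (e.drop K.nI) with hHdef
      set p : ℤ := BB ^ K.nI with hp
      have hp1 : 1 ≤ p := by
        have : (1 : ℤ) ≤ (4294967296 : ℤ) ^ K.nI := by exact_mod_cast h1p
        exact this
      have hL2 : 2 * |L| < p := by
        by_contra hcon
        push Not at hcon
        have h1 : (BB - 1) * p ≤ 2 * ((BB - 1) * |L|) := by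
          calc (BB - 1) * p ≤ (BB - 1) * (2 * |L|) :=
                mul_le_mul_of_nonneg_left hcon (by norm_num)
            _ = 2 * ((BB - 1) * |L|) := by ring
        have h2 : 2 * ((BB - 1) * |L|) ≤ 2 * (100000 * (p - 1)) := by linarith
        have h3 : 2 * (100000 * (p - 1)) < (BB - 1) * p := by
          have : (0 : ℤ) < (BB - 1 - 200000) * p := by
            apply mul_pos (by norm_num)
            linarith
          nlinarith
        linarith
      have hL3 := abs_le.1 (le_refl |L|)
      have hH : H = 0 := by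
        by_contra hne
        rcases lt_or_gt_of_ne hne with h0 | h0
        · have h1 : H ≤ -1 := by omega
          have h2 : p * H ≤ p * (-1) := mul_le_mul_of_nonneg_left h1 (by linarith)
          linarith [hL3.2]
        · have h1 : 1 ≤ H := by omega
          have h2 : p * 1 ≤ p * H := mul_le_mul_of_nonneg_left h1 (by linarith)
          linarith [hL3.1]
      apply hB.1 BB 17 (e.drop K.nI) (by norm_num)
      · intro z hz
        exact (hr.bd z (List.mem_of_mem_drop hz)).trans_lt (by norm_num)
      · rw [List.length_drop]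
        have := hr.len
        omega
      · rw [← hHdef, hH]
  · intro e f x y he hf h
    have h' : x % ZN = y % ZN := Nat.eq_of_beq_eq_true h
    apply hB.2 BB 100000 100000 17 e f (by norm_num) (by norm_num) (by norm_num) (by norm_num)
      he.bd hf.bd (he.len.trans (by norm_num)) (hf.len.trans (by norm_num))
    have h1 : (x : ℤ) ≡ (y : ℤ) [ZMOD ZZ] := by
      refine (mod_cg x).symm.trans ?_
      rw [h']
      exact mod_cg y
    exact (he.cg.symm.trans h1).trans hf.cg

end Pool.Agent.Helper3.PC
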